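import Pool.Agent.TH288.LEC.Local

/-!
# Extension of list edge colourings from a dense part
-/

set_option autoImplicit false
set_option linter.unusedSectionVars false

namespace Pool.Agent.TH288.LEC

open Finset Pool.Agent.H162R2.Sparse Pool.Agent.H921R2.LEC

variable {V : Type} [Fintype V] [DecidableEq V]

theorem extend (G F : SimpleGraph V) (a : ℝ) (hdens : Dens (G \ F) a)
    (L : Sym2 V → Finset ℕ) (f0 : Sym2 V → ℕ)
    (h0 : ∀ u v w, F.Adj u v → F.Adj u w → v ≠ w → f0 s(u, v) ≠ f0 s(u, w))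
    (h0L : ∀ e ∈ F.edgeSet, f0 e ∈ L e)
    (h1 : ∀ u v, (G \ F).Adj u v → dg F u + dg F v + dg (G \ F) v ≤ (L s(u, v)).card)
    (h2 : ∀ u v, (G \ F).Adj u v →
      (dg F u + dg F v : ℝ) + 34 * a * (1 + Real.log (dg (G \ F) v)) ≤ (L s(u, v)).card) :
    ∃ f : Sym2 V → ℕ, (∀ e ∈ F.edgeSet, f e = f0 e) ∧ (∀ e ∈ G.edgeSet, f e ∈ L e) ∧
      ∀ u v w, G.Adj u v → G.Adj u w → v ≠ w → f s(u, v) ≠ f s(u, w) := by
  classical
  rcases isEmpty_or_nonempty V with hV | ⟨⟨v0⟩⟩
  · exact ⟨f0, fun _ _ => rfl, fun e => by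
      induction e using Sym2.ind with
      | _ x y => exact (hV.false x).elim, fun u => (hV.false u).elim⟩
  have ha : 0 ≤ a := by
    have h3 := hdens {v0}
    rw [Finset.card_singleton, Nat.cast_one, mul_one] at h3
    exact le_trans (Nat.cast_nonneg _) h3
  let L' : V → V → Finset ℕ := fun x y => L s(x, y) \
    ((nb F x).image (fun w => f0 s(x, w)) ∪ (nb F y).image (fun w => f0 s(y, w)))
  have hsym : ∀ x y, L' x y = L' y x := by
    intro x y
    simp only [L']
    rw [Finset.union_comm, Sym2.eq_swap]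
  have hcard : ∀ x y, (L s(x, y)).card ≤ (L' x y).card + (dg F x + dg F y) := by
    intro x y
    have h3 := Finset.le_card_sdiff
      ((nb F x).image (fun w => f0 s(x, w)) ∪ (nb F y).image (fun w => f0 s(y, w))) (L s(x, y))
    have h4 := Finset.card_union_le ((nb F x).image (fun w => f0 s(x, w)))
      ((nb F y).image (fun w => f0 s(y, w)))
    have h5 := Finset.card_image_le (s := nb F x) (f := fun w => f0 s(x, w))
    have h6 := Finset.card_image_le (s := nb F y) (f := fun w => f0 s(y, w))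
    simp only [L']
    unfold dg
    omega
  obtain ⟨g, hg1, hg2, hg3⟩ := main_local a ha L' hsym _ (G \ F) rfl hdens (by
    intro u v huv
    have h3 := h1 u v huv
    have h4 := hcard u v
    omega) (by
    intro u v huv
    have h3 := h2 u v huv
    have h4 : ((L s(u, v)).card : ℝ) ≤ (L' u v).card + (dg F u + dg F v) := by
      exact_mod_cast hcard u v
    linarith)
  have hout : ∀ x y, (G \ F).Adj x y →
      g (Quot.out s(x, y)).1 (Quot.out s(x, y)).2 = g x y := by
    intro x y hxy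
    have h3 : s((Quot.out s(x, y)).1, (Quot.out s(x, y)).2) = s(x, y) := Quot.out_eq s(x, y)
    rcases Sym2.eq_iff.1 h3 with ⟨h4, h5⟩ | ⟨h4, h5⟩
    · rw [h4, h5]
    · rw [h4, h5]
      exact hg1 y x hxy.symm
  let f : Sym2 V → ℕ := fun e => if e ∈ F.edgeSet then f0 e else g (Quot.out e).1 (Quot.out e).2
  have hfF : ∀ x y, F.Adj x y → f s(x, y) = f0 s(x, y) := by
    intro x y h
    simp only [f]
    rw [if_pos]
    exact h
  have hfG : ∀ x y, (G \ F).Adj x y → f s(x, y) = g x y := by
    intro x y h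
    simp only [f]
    rw [if_neg, hout x y h]
    intro h3
    rw [SimpleGraph.sdiff_adj] at h
    exact h.2 h3
  have hmix : ∀ u v w, F.Adj u v → (G \ F).Adj u w → f0 s(u, v) ≠ g u w := by
    intro u v w huv huw h
    have h3 := hg2 u w huw
    simp only [L'] at h3
    rw [Finset.mem_sdiff, Finset.mem_union, not_or] at h3
    apply h3.2.1
    rw [← h]
    exact Finset.mem_image.2 ⟨v, (mem_nb F u v).2 huv, rfl⟩
  refine ⟨f, ?_, ?_, ?_⟩
  · intro e he
    simp only [f]
    rw [if_pos he]
  · intro e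
    induction e using Sym2.ind with
    | _ x y =>
      intro he
      by_cases hF : F.Adj x y
      · rw [hfF x y hF]
        exact h0L _ hF
      · have hH : (G \ F).Adj x y := by
          rw [SimpleGraph.sdiff_adj]
          exact ⟨he, hF⟩
        rw [hfG x y hH]
        have h3 := hg2 x y hH
        simp only [L'] at h3
        exact (Finset.mem_sdiff.1 h3).1
  · intro u v w huv huw hvw
    by_cases h3 : F.Adj u v <;> by_cases h4 : F.Adj u w
    · rw [hfF u v h3, hfF u w h4]
      exact h0 u v w h3 h4 hvw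
    · have h5 : (G \ F).Adj u w := by
        rw [SimpleGraph.sdiff_adj]
        exact ⟨huw, h4⟩
      rw [hfF u v h3, hfG u w h5]
      exact hmix u v w h3 h5
    · have h5 : (G \ F).Adj u v := by
        rw [SimpleGraph.sdiff_adj]
        exact ⟨huv, h3⟩
      rw [hfG u v h5, hfF u w h4]
      exact (hmix u w v h4 h5).symm
    · have h5 : (G \ F).Adj u v := by
        rw [SimpleGraph.sdiff_adj]
        exact ⟨huv, h3⟩
      have h6 : (G \ F).Adj u w := by
        rw [SimpleGraph.sdiff_adj]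
        exact ⟨huw, h4⟩
      rw [hfG u v h5, hfG u w h6]
      exact hg3 u v w h5 h6 hvw

/-- Greedily choosable graphs. -/
theorem choosable_greedy (F : SimpleGraph V) (D : ℕ)
    (h : ∀ u v, F.Adj u v → dg F u + dg F v ≤ D + 1) : Choosable F D := by
  apply choosable_of_LC
  intro L hsym hL
  apply main_greedy L hsym _ F rfl
  intro u v huv
  have := h u v huv
  have := hL u v huv
  omega

theorem lineGraph_adj_of (G : SimpleGraph V) (u v w : V) (huv : G.Adj u v) (huw : G.Adj u w)
    (hvw : v ≠ w) : G.lineGraph.Adj ⟨s(u, v), huv⟩ ⟨s(u, w), huw⟩ := by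
  rw [SimpleGraph.lineGraph_adj_iff_exists]
  refine ⟨?_, u, Sym2.mem_mk_left _ _, Sym2.mem_mk_left _ _⟩
  intro h
  have h2 := congrArg Subtype.val h
  simp only at h2
  rcases Sym2.eq_iff.1 h2 with ⟨_, h3⟩ | ⟨h3, h4⟩
  · exact hvw h3
  · exact hvw (h4.trans h3)

/-- Choosability of the union of a choosable graph and a sparse graph. -/
theorem choosable_union (G F : SimpleGraph V) (hFG : F ≤ G) (D : ℕ) (a : ℝ)
    (hdens : Dens (G \ F) a) (hF : Choosable F D)
    (h1 : ∀ u v, (G \ F).Adj u v → dg F u + dg F v + dg (G \ F) v ≤ D)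
    (h2 : ∀ u v, (G \ F).Adj u v →
      (dg F u + dg F v : ℝ) + 34 * a * (1 + Real.log (dg (G \ F) v)) ≤ D) :
    Choosable G D := by
  classical
  intro L hL
  let Lh : Sym2 V → Finset ℕ := fun e => if h : e ∈ G.edgeSet then L ⟨e, h⟩ else ∅
  have hLh : ∀ e (h : e ∈ G.edgeSet), Lh e = L ⟨e, h⟩ := by
    intro e h
    simp only [Lh]
    rw [dif_pos h]
  have hsub : F.edgeSet ⊆ G.edgeSet := SimpleGraph.edgeSet_mono hFG
  obtain ⟨g, hg1, hg2⟩ := hF (fun e => Lh e.1) (by
    intro e
    rw [hLh e.1 (hsub e.2)]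
    exact hL _)
  let f0 : Sym2 V → ℕ := fun e => if h : e ∈ F.edgeSet then g ⟨e, h⟩ else 0
  have hf0 : ∀ e (h : e ∈ F.edgeSet), f0 e = g ⟨e, h⟩ := by
    intro e h
    simp only [f0]
    rw [dif_pos h]
  obtain ⟨f, _, hf2, hf3⟩ := extend G F a hdens Lh f0 (by
    intro u v w huv huw hvw
    rw [hf0 _ huv, hf0 _ huw]
    exact hg2 _ _ (lineGraph_adj_of F u v w huv huw hvw)) (by
    intro e he
    rw [hf0 e he]
    exact hg1 ⟨e, he⟩) (by
    intro u v huv
    refine (h1 u v huv).trans ?_
    rw [hLh _ ((SimpleGraph.sdiff_adj _ _ _ _).1 huv).1]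
    exact hL _) (by
    intro u v huv
    refine (h2 u v huv).trans ?_
    rw [hLh _ ((SimpleGraph.sdiff_adj _ _ _ _).1 huv).1]
    exact_mod_cast hL _)
  refine ⟨fun e => f e.1, ?_, ?_⟩
  · intro e
    have h3 := hf2 e.1 e.2
    rwa [hLh e.1 e.2] at h3
  · intro e e' he
    rw [SimpleGraph.lineGraph_adj_iff_exists] at he
    obtain ⟨hne, x, hx, hx'⟩ := he
    obtain ⟨b, hb⟩ := Sym2.mem_iff_exists.1 hx
    obtain ⟨d, hd⟩ := Sym2.mem_iff_exists.1 hx'
    simp only
    rw [hb, hd]
    have h3 : G.Adj x b := by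
      have := e.2
      rw [hb] at this
      exact this
    have h4 : G.Adj x d := by
      have := e'.2
      rw [hd] at this
      exact this
    apply hf3 x b d h3 h4
    rintro rfl
    apply hne
    exact Subtype.ext (hb.trans hd.symm)

end Pool.Agent.TH288.LEC
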