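import Pool.Agent.TH288.LEC.Ext
import Pool.Agent.H162R2.AG.K1

/-!
# Galvin's theorem with nested palettes

Bipartite graphs whose edges have lists of a size given by the right end.
-/

set_option autoImplicit false
set_option linter.unusedSectionVars false

namespace Pool.Agent.TH288.LEC

open Finset Pool.Agent.H162R2.Sparse Pool.Agent.H921R2.LEC

variable {V : Type} [Fintype V] [DecidableEq V]

/-- A matching covering the vertices of maximum degree. -/
theorem matching_cover (E : Finset (V × V)) (j : ℕ) (hj : j ≠ 0)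
    (hl : ∀ v, (E.filter (fun f => f.1 = v)).card ≤ j)
    (hr : ∀ w, (E.filter (fun f => f.2 = w)).card ≤ j) :
    ∃ M ⊆ E, (∀ e ∈ M, ∀ f ∈ M, (e.1 = f.1 ∨ e.2 = f.2) → e = f) ∧
      (∀ v, (E.filter (fun f => f.1 = v)).card = j → ∃ e ∈ M, e.1 = v) ∧
      (∀ w, (E.filter (fun f => f.2 = w)).card = j → ∃ e ∈ M, e.2 = w) := by
  classical
  set M0 : V → V → ℕ := fun v w => if (v, w) ∈ E then 1 else 0 with hM0
  have hrow : ∀ v, ∑ w, M0 v w = (E.filter (fun f => f.1 = v)).card := by
    intro v
    rw [hM0]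
    simp only
    rw [← Finset.card_filter]
    refine Finset.card_bij (fun w _ => (v, w)) ?_ ?_ ?_
    · intro w hw
      simp only [mem_filter, mem_univ, true_and] at hw ⊢
      exact ⟨hw, trivial⟩
    · intro a _ b _ h
      exact (Prod.mk.inj h).2
    · rintro ⟨a, b⟩ h
      simp only [mem_filter] at h
      obtain ⟨h1, h2⟩ := h
      subst h2
      exact ⟨b, by simpa using h1, rfl⟩
  have hcol : ∀ w, ∑ v, M0 v w = (E.filter (fun f => f.2 = w)).card := by
    intro w
    rw [hM0]
    simp only
    rw [← Finset.card_filter]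
    refine Finset.card_bij (fun v _ => (v, w)) ?_ ?_ ?_
    · intro v hv
      simp only [mem_filter, mem_univ, true_and] at hv ⊢
      exact ⟨hv, trivial⟩
    · intro a _ b _ h
      exact (Prod.mk.inj h).1
    · rintro ⟨a, b⟩ h
      simp only [mem_filter] at h
      obtain ⟨h1, h2⟩ := h
      subst h2
      exact ⟨a, by simpa using h1, rfl⟩
  have htot : ∑ v, ∑ w, M0 v w ≤ j * Fintype.card V := by
    calc ∑ v, ∑ w, M0 v w ≤ ∑ _v : V, j := Finset.sum_le_sum fun v _ => (hrow v).le.trans (hl v)
      _ = j * Fintype.card V := by simp [mul_comm]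
  obtain ⟨M', h1, h2, h3⟩ := Pool.Agent.H162R2.AG.k1_fill j
    (j * Fintype.card V - ∑ v, ∑ w, M0 v w) M0 (fun v => (hrow v).le.trans (hl v))
    (fun w => (hcol w).le.trans (hr w)) (by omega)
  obtain ⟨σ, hσ⟩ := Pool.Agent.H150R2.ZSF.exists_perm M' j hj h2 h3
  refine ⟨E.filter (fun e => σ e.1 = e.2), Finset.filter_subset _ _, ?_, ?_, ?_⟩
  · intro e he f hf h
    rw [Finset.mem_filter] at he hf
    rcases h with h | h
    · exact Prod.ext h (by rw [← he.2, ← hf.2, h])
    · refine Prod.ext (σ.injective ?_) h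
      rw [he.2, hf.2, h]
  · intro v hv
    have h4 : M0 v (σ v) = M' v (σ v) :=
      (Finset.sum_eq_sum_iff_of_le (fun w _ => h1 v w)).1 ((hrow v).trans (hv.trans (h2 v).symm))
        (σ v) (Finset.mem_univ _)
    have h5 := hσ v
    rw [← h4] at h5
    have h6 : (v, σ v) ∈ E := by
      by_contra h
      apply h5
      rw [hM0]
      simp only
      rw [if_neg h]
    exact ⟨(v, σ v), Finset.mem_filter.2 ⟨h6, rfl⟩, rfl⟩
  · intro w hw
    have h4 : M0 (σ.symm w) w = M' (σ.symm w) w :=
      (Finset.sum_eq_sum_iff_of_le (fun v _ => h1 v w)).1 ((hcol w).trans (hw.trans (h3 w).symm))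
        (σ.symm w) (Finset.mem_univ _)
    have h5 := hσ (σ.symm w)
    rw [Equiv.apply_symm_apply, ← h4] at h5
    have h6 : (σ.symm w, w) ∈ E := by
      by_contra h
      apply h5
      rw [hM0]
      simp only
      rw [if_neg h]
    exact ⟨(σ.symm w, w), Finset.mem_filter.2 ⟨h6, Equiv.apply_symm_apply _ _⟩, rfl⟩

/-- Proper colourings whose palettes on the right are initial segments. -/
theorem nested (b : V → ℕ) : ∀ (j : ℕ) (E : Finset (V × V)),
    (∀ v, (E.filter (fun f => f.1 = v)).card ≤ j) →
    (∀ w, (E.filter (fun f => f.2 = w)).card ≤ j) →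
    (∀ w, (E.filter (fun f => f.2 = w)).card ≤ b w) →
    (∀ e ∈ E, (E.filter (fun f => f.1 = e.1)).card ≤ b e.2) →
    ∃ c : V × V → ℕ, (∀ e ∈ E, c e < j) ∧ (∀ e ∈ E, c e < b e.2) ∧
      ∀ e ∈ E, ∀ f ∈ E, e ≠ f → (e.1 = f.1 ∨ e.2 = f.2) → c e ≠ c f := by
  classical
  intro j
  induction j with
  | zero =>
    intro E h1 _ _ _
    have hE : ∀ e, e ∉ E := by
      intro e he
      have h5 := h1 e.1
      have h6 : e ∈ E.filter (fun f => f.1 = e.1) := Finset.mem_filter.2 ⟨he, rfl⟩
      have h7 := Finset.card_pos.2 ⟨e, h6⟩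
      omega
    exact ⟨fun _ => 0, fun e he => absurd he (hE e), fun e he => absurd he (hE e),
      fun e he => absurd he (hE e)⟩
  | succ j ih =>
    intro E h1 h2 h3 h4
    set E1 := E.filter (fun e => j + 1 ≤ b e.2) with hE1
    have hsub : E1 ⊆ E := Finset.filter_subset _ _
    obtain ⟨M, hM1, hM2, hM3, hM4⟩ := matching_cover E1 (j + 1) (Nat.succ_ne_zero j)
      (fun v => (Finset.card_le_card (Finset.filter_subset_filter _ hsub)).trans (h1 v))
      (fun w => (Finset.card_le_card (Finset.filter_subset_filter _ hsub)).trans (h2 w))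
    have hme : ∀ (v : V), (E.filter (fun f => f.1 = v)).card = j + 1 → ∃ e ∈ M, e.1 = v := by
      intro v hv
      apply hM3
      rw [← hv]
      congr 1
      ext e
      simp only [Finset.mem_filter, hE1]
      constructor
      · rintro ⟨⟨h5, _⟩, h6⟩
        exact ⟨h5, h6⟩
      · rintro ⟨h5, h6⟩
        refine ⟨⟨h5, ?_⟩, h6⟩
        have := h4 e h5
        rw [h6, hv] at this
        exact this
    have hmr : ∀ (w : V), (E.filter (fun f => f.2 = w)).card = j + 1 → ∃ e ∈ M, e.2 = w := by
      intro w hw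
      apply hM4
      rw [← hw]
      congr 1
      ext e
      simp only [Finset.mem_filter, hE1]
      constructor
      · rintro ⟨⟨h5, _⟩, h6⟩
        exact ⟨h5, h6⟩
      · rintro ⟨h5, h6⟩
        refine ⟨⟨h5, ?_⟩, h6⟩
        rw [h6, ← hw]
        exact h3 w
    have hle : ∀ (P : V × V → Prop) [DecidablePred P],
        ((E \ M).filter P).card ≤ (E.filter P).card :=
      fun P _ => Finset.card_le_card (Finset.filter_subset_filter _ Finset.sdiff_subset)
    have hlt : ∀ (P : V × V → Prop) [DecidablePred P], (∃ e ∈ M, P e) →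
        ((E \ M).filter P).card < (E.filter P).card := by
      rintro P _ ⟨e, he, hP⟩
      apply Finset.card_lt_card
      rw [Finset.ssubset_iff_of_subset (Finset.filter_subset_filter _ Finset.sdiff_subset)]
      refine ⟨e, Finset.mem_filter.2 ⟨hsub (hM1 he), hP⟩, ?_⟩
      intro h
      exact (Finset.mem_sdiff.1 (Finset.mem_filter.1 h).1).2 he
    obtain ⟨c, hc1, hc2, hc3⟩ := ih (E \ M) (by
        intro v
        rcases Nat.lt_or_ge (E.filter (fun f => f.1 = v)).card (j + 1) with h | h
        · have := hle (fun f => f.1 = v)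
          omega
        · have := hlt (fun f => f.1 = v) (hme v (le_antisymm (h1 v) h))
          have := h1 v
          omega) (by
        intro w
        rcases Nat.lt_or_ge (E.filter (fun f => f.2 = w)).card (j + 1) with h | h
        · have := hle (fun f => f.2 = w)
          omega
        · have := hlt (fun f => f.2 = w) (hmr w (le_antisymm (h2 w) h))
          have := h2 w
          omega) (fun w => (hle _).trans (h3 w))
        (fun e he => (hle _).trans (h4 e (Finset.mem_sdiff.1 he).1))
    refine ⟨fun e => if e ∈ M then j else c e, ?_, ?_, ?_⟩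
    · intro e he
      simp only
      by_cases h : e ∈ M
      · rw [if_pos h]
        omega
      · rw [if_neg h]
        have := hc1 e (Finset.mem_sdiff.2 ⟨he, h⟩)
        omega
    · intro e he
      simp only
      by_cases h : e ∈ M
      · rw [if_pos h]
        have := (Finset.mem_filter.1 (hM1 h)).2
        omega
      · rw [if_neg h]
        exact hc2 e (Finset.mem_sdiff.2 ⟨he, h⟩)
    · intro e he f hf hef hadj
      simp only
      by_cases h : e ∈ M <;> by_cases h' : f ∈ M
      · exact absurd (hM2 e h f h' hadj) hef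
      · rw [if_pos h, if_neg h']
        have := hc1 f (Finset.mem_sdiff.2 ⟨hf, h'⟩)
        omega
      · rw [if_neg h, if_pos h']
        have := hc1 e (Finset.mem_sdiff.2 ⟨he, h⟩)
        omega
      · rw [if_neg h, if_neg h']
        exact hc3 e (Finset.mem_sdiff.2 ⟨he, h⟩) f (Finset.mem_sdiff.2 ⟨hf, h'⟩) hef hadj

/-- Galvin's theorem with list sizes given by the right end. -/
theorem galvin_local (E : Finset (V × V)) (b : V → ℕ)
    (hr : ∀ w, (E.filter (fun f => f.2 = w)).card ≤ b w)
    (hl : ∀ e ∈ E, (E.filter (fun f => f.1 = e.1)).card ≤ b e.2)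
    (L : V × V → Finset ℕ) (hL : ∀ e ∈ E, b e.2 ≤ (L e).card) :
    ∃ col : V × V → ℕ, (∀ e ∈ E, col e ∈ L e) ∧
        ∀ e ∈ E, ∀ f ∈ E, e ≠ f → (e.1 = f.1 ∨ e.2 = f.2) → col e ≠ col f := by
  classical
  obtain ⟨c, -, hc2, hc3⟩ := nested b E.card E (fun v => Finset.card_filter_le _ _)
    (fun w => Finset.card_filter_le _ _) hr hl
  let M : ℕ := Fintype.card (V × V)
  let ι : V × V → ℕ := fun e => (Fintype.equivFin (V × V) e : ℕ)
  have hι : ∀ e, ι e < M := fun e => (Fintype.equivFin (V × V) e).isLt
  have hιi : Function.Injective ι := by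
    intro e f h
    exact (Fintype.equivFin (V × V)).injective (Fin.ext h)
  let K : ℕ := univ.sup c
  have hK : ∀ e, c e ≤ K := fun e => Finset.le_sup (f := c) (Finset.mem_univ e)
  let pu : V × V → ℕ := fun e => c e * M + ι e
  let qw : V × V → ℕ := fun e => (K - c e) * M + ι e
  have hpu : Function.Injective pu := by
    intro e f h
    apply hιi
    have h1 := congrArg (· % M) h
    simp only [pu] at h1
    rwa [Nat.mul_add_mod_of_lt (hι e), Nat.mul_add_mod_of_lt (hι f)] at h1
  have hqw : Function.Injective qw := by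
    intro e f h
    apply hιi
    have h1 := congrArg (· % M) h
    simp only [qw] at h1
    rwa [Nat.mul_add_mod_of_lt (hι e), Nat.mul_add_mod_of_lt (hι f)] at h1
  have hpu_lt : ∀ e f, pu f < pu e → c f ≤ c e := by
    intro e f h
    by_contra hcon
    push Not at hcon
    have h1 : (c e + 1) * M ≤ c f * M := Nat.mul_le_mul_right _ hcon
    have h2 := hι e
    simp only [pu] at h
    rw [Nat.add_mul, one_mul] at h1
    omega
  have hqw_lt : ∀ e f, qw f < qw e → c e ≤ c f := by
    intro e f h
    by_contra hcon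
    push Not at hcon
    have h0 : K - c e + 1 ≤ K - c f := by
      have := hK e
      omega
    have h1 : (K - c e + 1) * M ≤ (K - c f) * M := Nat.mul_le_mul_right _ h0
    have h2 := hι e
    simp only [qw] at h
    rw [Nat.add_mul, one_mul] at h1
    omega
  refine list_colour pu qw hpu hqw _ E L rfl ?_
  intro e he
  refine lt_of_lt_of_le ?_ (hL e he)
  have hsub : E.filter (fun f => Dom pu qw f e) ⊆
      (E.filter (fun f => f.1 = e.1 ∧ c f < c e)) ∪
        (E.filter (fun f => f.2 = e.2 ∧ c e < c f)) := by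
    intro f hf
    rw [Finset.mem_filter] at hf
    rw [Finset.mem_union, Finset.mem_filter, Finset.mem_filter]
    rcases hf.2 with ⟨h1, h2⟩ | ⟨h1, h2⟩
    · left
      have hne : f ≠ e := by
        rintro rfl
        exact lt_irrefl _ h2
      exact ⟨hf.1, h1, lt_of_le_of_ne (hpu_lt e f h2) (hc3 f hf.1 e he hne (Or.inl h1))⟩
    · right
      have hne : f ≠ e := by
        rintro rfl
        exact lt_irrefl _ h2
      exact ⟨hf.1, h1, lt_of_le_of_ne (hqw_lt e f h2) (hc3 f hf.1 e he hne (Or.inr h1)).symm⟩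
  have h1 := (Finset.card_le_card hsub).trans (Finset.card_union_le _ _)
  have h2 : (E.filter (fun f => f.1 = e.1 ∧ c f < c e)).card ≤ c e := by
    refine le_trans (Finset.card_le_card_of_injOn (t := Finset.range (c e)) c ?_ ?_)
      (Finset.card_range _).le
    · intro f hf
      rw [Finset.mem_coe, Finset.mem_filter] at hf
      rw [Finset.mem_coe, Finset.mem_range]
      exact hf.2.2
    · intro f hf g hg h
      rw [Finset.mem_coe, Finset.mem_filter] at hf hg
      by_contra hne
      exact hc3 f hf.1 g hg.1 hne (Or.inl (hf.2.1.trans hg.2.1.symm)) h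
  have h3 : (E.filter (fun f => f.2 = e.2 ∧ c e < c f)).card ≤ b e.2 - 1 - c e := by
    have h4 : (Finset.Ioo (c e) (b e.2)).card = b e.2 - 1 - c e := by
      rw [Nat.card_Ioo]
      omega
    rw [← h4]
    apply Finset.card_le_card_of_injOn c
    · intro f hf
      rw [Finset.mem_coe, Finset.mem_filter] at hf
      rw [Finset.mem_coe, Finset.mem_Ioo]
      refine ⟨hf.2.2, ?_⟩
      have := hc2 f hf.1
      rwa [hf.2.1] at this
    · intro f hf g hg h
      rw [Finset.mem_coe, Finset.mem_filter] at hf hg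
      by_contra hne
      exact hc3 f hf.1 g hg.1 hne (Or.inr (hf.2.1.trans hg.2.1.symm)) h
  have h5 := hc2 e he
  omega

end Pool.Agent.TH288.LEC
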