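import Pool.Agent.TH288.LEC.Galvin

/-!
# List edge colourings level by level
-/

set_option autoImplicit false
set_option linter.unusedSectionVars false

namespace Pool.Agent.TH288.LEC

open Finset Pool.Agent.H162R2.Sparse Pool.Agent.H921R2.LEC

variable {V : Type} [Fintype V] [DecidableEq V]

theorem card_ES_left (G : SimpleGraph V) (X : Finset V) (u : V) :
    ((ES G X).filter (fun e => e.1 = u)).card ≤ dg G u := by
  unfold dg
  apply Finset.card_le_card_of_injOn (fun e => e.2)
  · intro e he
    rw [Finset.mem_coe, Finset.mem_filter, mem_ES] at he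
    rw [Finset.mem_coe, mem_nb, ← he.2]
    exact he.1.1
  · intro e he f hf h
    rw [Finset.mem_coe, Finset.mem_filter] at he hf
    exact Prod.ext (he.2.trans hf.2.symm) h

/-- Extension to an independent set by Galvin's theorem. -/
theorem ext_galvin (G : SimpleGraph V) (X : Finset V) (D : ℕ) (L : V → V → Finset ℕ)
    (hX : ∀ u ∈ X, ∀ v ∈ X, ¬ G.Adj u v) (hD : ∀ v, dg G v ≤ D)
    (hcross : ∀ u ∈ X, ∀ w, G.Adj u w →
      dg G u + ((nb G w).filter (fun v => ¬ v ∈ X)).card ≤ D)
    (hL : ∀ a b, G.Adj a b → D ≤ (L a b).card)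
    (hsym : ∀ a b, L a b = L b a) (IH : LC (cutX G X) L) : LC G L := by
  classical
  obtain ⟨f, hf1, hf2, hf3⟩ := IH
  let L' : V × V → Finset ℕ := fun e =>
    L e.1 e.2 \ ((nb G e.2).filter (fun v => ¬ v ∈ X)).image (f e.2)
  obtain ⟨col, hc1, hc2⟩ := galvin_local (ES G X)
    (fun w => D - ((nb G w).filter (fun v => ¬ v ∈ X)).card) (by
      intro w
      have h1 := dg_split G X w
      have h2 := hD w
      unfold hh at h1
      omega) (by
      intro e he
      have h1 := card_ES_left G X e.1
      have h2 := (mem_ES G X e).1 he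
      have h3 := hcross e.1 h2.2 e.2 h2.1
      omega) L' (by
    intro e he
    have h2 := Finset.card_image_le (s := (nb G e.2).filter (fun v => ¬ v ∈ X)) (f := f e.2)
    have h3 := Finset.le_card_sdiff (((nb G e.2).filter (fun v => ¬ v ∈ X)).image (f e.2))
      (L e.1 e.2)
    have h4 := hL e.1 e.2 ((mem_ES G X e).1 he).1
    simp only [L']
    omega)
  have hcf : ∀ a b d, a ∉ X → b ∈ X → d ∉ X → G.Adj a b → G.Adj a d → col (b, a) ≠ f a d := by
    intro a b d ha hb hd hab had h
    have h1 := hc1 (b, a) ((mem_ES G X (b, a)).2 ⟨hab.symm, hb⟩)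
    simp only [L'] at h1
    rw [Finset.mem_sdiff] at h1
    apply h1.2
    rw [h]
    exact Finset.mem_image_of_mem _ (Finset.mem_filter.2 ⟨(mem_nb G a d).2 had, hd⟩)
  refine ⟨fun a b => if a ∈ X then col (a, b) else if b ∈ X then col (b, a) else f a b,
    ?_, ?_, ?_⟩
  · intro a b hab
    simp only
    by_cases ha : a ∈ X
    · have hb : b ∉ X := fun hb => hX a ha b hb hab
      rw [if_pos ha, if_neg hb, if_pos ha]
    · by_cases hb : b ∈ X
      · rw [if_neg ha, if_pos hb, if_pos hb]
      · rw [if_neg ha, if_neg hb, if_neg hb, if_neg ha]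
        exact hf1 a b ((cutX_adj G X a b).2 ⟨hab, ha, hb⟩)
  · intro a b hab
    simp only
    by_cases ha : a ∈ X
    · rw [if_pos ha]
      have h1 := hc1 (a, b) ((mem_ES G X (a, b)).2 ⟨hab, ha⟩)
      simp only [L'] at h1
      exact (Finset.mem_sdiff.1 h1).1
    · by_cases hb : b ∈ X
      · rw [if_neg ha, if_pos hb]
        have h1 := hc1 (b, a) ((mem_ES G X (b, a)).2 ⟨hab.symm, hb⟩)
        simp only [L'] at h1
        rw [hsym]
        exact (Finset.mem_sdiff.1 h1).1
      · rw [if_neg ha, if_neg hb]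
        exact hf2 a b ((cutX_adj G X a b).2 ⟨hab, ha, hb⟩)
  · intro a b d hab had hbd
    simp only
    by_cases ha : a ∈ X
    · rw [if_pos ha, if_pos ha]
      apply hc2 _ ((mem_ES G X (a, b)).2 ⟨hab, ha⟩) _ ((mem_ES G X (a, d)).2 ⟨had, ha⟩)
      · intro h
        exact hbd (Prod.ext_iff.1 h).2
      · left
        rfl
    · rw [if_neg ha, if_neg ha]
      by_cases hb : b ∈ X
      · rw [if_pos hb]
        by_cases hd : d ∈ X
        · rw [if_pos hd]
          apply hc2 _ ((mem_ES G X (b, a)).2 ⟨hab.symm, hb⟩) _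
            ((mem_ES G X (d, a)).2 ⟨had.symm, hd⟩)
          · intro h
            exact hbd (Prod.ext_iff.1 h).1
          · right
            rfl
        · rw [if_neg hd]
          exact hcf a b d ha hb hd hab had
      · rw [if_neg hb]
        by_cases hd : d ∈ X
        · rw [if_pos hd]
          exact (hcf a d b ha hd hb had hab).symm
        · rw [if_neg hd]
          exact hf3 a b d ((cutX_adj G X a b).2 ⟨hab, ha, hb⟩)
            ((cutX_adj G X a d).2 ⟨had, ha, hd⟩) hbd

/-- Light edges can be coloured greedily at the end. -/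
theorem ext_light (L : V → V → Finset ℕ) (hsym : ∀ a b, L a b = L b a) (G' : SimpleGraph V) :
    ∀ (n : ℕ) (G : SimpleGraph V), (pr G).card = n → (∀ u v, G'.Adj u v → G.Adj u v) →
      (∀ u v, G.Adj u v → ¬ G'.Adj u v → dg G u + dg G v ≤ (L u v).card + 1) →
      LC G' L → LC G L := by
  classical
  intro n
  induction n using Nat.strong_induction_on with
  | _ n ih =>
    intro G hn hGG hL hLC
    by_cases hedge : ∃ u v, G.Adj u v ∧ ¬ G'.Adj u v
    · obtain ⟨u, v, huv, hnot⟩ := hedge
      have hmono : ∀ a b, (cutE G u v).Adj a b → G.Adj a b := by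
        intro a b h
        exact ((cutE_adj G u v a b).1 h).1
      apply ext_edge G u v huv L hsym (hL u v huv hnot)
      apply ih _ _ (cutE G u v) rfl
      · intro a b hab
        rw [cutE_adj]
        refine ⟨hGG a b hab, ?_⟩
        rintro (⟨rfl, rfl⟩ | ⟨rfl, rfl⟩)
        · exact hnot hab
        · exact hnot hab.symm
      · intro x y hxy hxy'
        have h1 := hL x y (hmono x y hxy) hxy'
        have h2 := dg_mono hmono x
        have h3 := dg_mono hmono y
        omega
      · exact hLC
      · rw [← hn]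
        apply pr_card_lt hmono u v huv
        rw [cutE_adj]
        tauto
    · push Not at hedge
      have hEq : G = G' := by
        ext u v
        exact ⟨fun h => hedge u v h, fun h => hGG u v h⟩
      rw [hEq]
      exact hLC

/-- From choosability to colourings from symmetric lists. -/
theorem LC_of_choosable (G : SimpleGraph V) (D : ℕ) (h : Choosable G D)
    (L : V → V → Finset ℕ) (hsym : ∀ a b, L a b = L b a)
    (hL : ∀ u v, G.Adj u v → D ≤ (L u v).card) : LC G L := by
  classical
  have hex : ∀ e : G.edgeSet, ∃ p : V × V, s(p.1, p.2) = e.1 := by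
    rintro ⟨e, he⟩
    induction e using Sym2.ind with
    | _ a b => exact ⟨(a, b), rfl⟩
  choose P hP using hex
  have hadjP : ∀ e : G.edgeSet, G.Adj (P e).1 (P e).2 := by
    intro e
    have h1 := e.2
    rw [← hP e] at h1
    exact h1
  have hLP : ∀ (u v : V) (huv : G.Adj u v),
      L (P ⟨s(u, v), huv⟩).1 (P ⟨s(u, v), huv⟩).2 = L u v := by
    intro u v huv
    rcases Sym2.eq_iff.1 (hP ⟨s(u, v), huv⟩) with ⟨h2, h3⟩ | ⟨h2, h3⟩
    · rw [h2, h3]
    · rw [h2, h3, hsym]
  obtain ⟨f, hf1, hf2⟩ := h (fun e => L (P e).1 (P e).2) (fun e => hL _ _ (hadjP e))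
  refine ⟨fun a b => if hab : G.Adj a b then f ⟨s(a, b), hab⟩ else 0, ?_, ?_, ?_⟩
  · intro a b hab
    simp only
    rw [dif_pos hab, dif_pos hab.symm]
    congr 1
    exact Subtype.ext Sym2.eq_swap
  · intro a b hab
    simp only
    rw [dif_pos hab]
    have h1 := hf1 ⟨s(a, b), hab⟩
    rwa [hLP a b hab] at h1
  · intro a b c hab hac hbc
    simp only
    rw [dif_pos hab, dif_pos hac]
    exact hf2 _ _ (lineGraph_adj_of G a b c hab hac hbc)

/-- Adding light edges. -/
theorem choosable_light (G G' : SimpleGraph V) (D : ℕ) (h : ∀ u v, G'.Adj u v → G.Adj u v)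
    (hl : ∀ u v, G.Adj u v → ¬ G'.Adj u v → dg G u + dg G v ≤ D + 1)
    (hG : Choosable G' D) : Choosable G D := by
  apply choosable_of_LC
  intro L hsym hL
  apply ext_light L hsym G' _ G rfl h
  · intro u v huv huv'
    have h1 := hl u v huv huv'
    have h2 := hL u v huv
    omega
  · exact LC_of_choosable G' D hG L hsym (fun u v huv => hL u v (h u v huv))

/-- The edges meeting `W`. -/
def meet (G : SimpleGraph V) (W : Finset V) : SimpleGraph V where
  Adj u v := G.Adj u v ∧ (u ∈ W ∨ v ∈ W)
  symm := ⟨fun _ _ h => ⟨h.1.symm, h.2.symm⟩⟩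
  loopless := ⟨fun v h => G.loopless.irrefl v h.1⟩

/-- The edges inside `W`. -/
def inner (G : SimpleGraph V) (W : Finset V) : SimpleGraph V where
  Adj u v := G.Adj u v ∧ u ∈ W ∧ v ∈ W
  symm := ⟨fun _ _ h => ⟨h.1.symm, h.2.2, h.2.1⟩⟩
  loopless := ⟨fun v h => G.loopless.irrefl v h.1⟩

/-- number of neighbours in `W` -/
noncomputable def dW (G : SimpleGraph V) (W : Finset V) (v : V) : ℕ :=
  ((nb G v).filter (fun w => w ∈ W)).card

theorem dg_meet_out (G : SimpleGraph V) (W : Finset V) (u : V) (hu : u ∉ W) :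
    dg (meet G W) u = dW G W u := by
  unfold dg dW
  congr 1
  ext w
  rw [mem_nb, Finset.mem_filter, mem_nb]
  simp only [meet]
  constructor
  · rintro ⟨h1, h2 | h2⟩
    · exact absurd h2 hu
    · exact ⟨h1, h2⟩
  · rintro ⟨h1, h2⟩
    exact ⟨h1, Or.inr h2⟩

theorem choosable_meet (G : SimpleGraph V) (W : Finset V) (D : ℕ) (hD : ∀ v, dg G v ≤ D)
    (hF : Choosable (inner G W) D)
    (hcross : ∀ u w, G.Adj u w → u ∉ W → w ∈ W → dW G W u + dW G W w ≤ D) :
    Choosable (meet G W) D := by
  classical
  apply choosable_of_LC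
  intro L hsym hL
  have hmono : ∀ a b, (meet G W).Adj a b → G.Adj a b := fun a b h => h.1
  apply ext_galvin (meet G W) Wᶜ D L
  · intro u hu v hv h
    rw [Finset.mem_compl] at hu hv
    rcases h.2 with h | h
    · exact hu h
    · exact hv h
  · intro v
    exact (dg_mono hmono v).trans (hD v)
  · intro u hu w huw
    rw [Finset.mem_compl] at hu
    have hw : w ∈ W := by
      rcases huw.2 with h | h
      · exact absurd h hu
      · exact h
    have h1 := hcross u w huw.1 hu hw
    rw [dg_meet_out G W u hu]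
    refine le_trans (Nat.add_le_add_left ?_ _) h1
    unfold dW
    apply Finset.card_le_card
    intro v hv
    rw [Finset.mem_filter, mem_nb, Finset.mem_compl, not_not] at hv
    rw [Finset.mem_filter, mem_nb]
    exact ⟨hv.1.1, hv.2⟩
  · exact hL
  · exact hsym
  · have hEq : cutX (meet G W) Wᶜ = inner G W := by
      ext u v
      rw [cutX_adj]
      simp only [meet, inner, Finset.mem_compl, not_not]
      tauto
    rw [hEq]
    apply LC_of_choosable _ D hF L hsym
    intro u v huv
    exact hL u v ⟨huv.1, Or.inl huv.2.1⟩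

/-- The levels theorem. -/
theorem choosable_levels (G H : SimpleGraph V) (W : Finset V) (D : ℕ) (a : ℝ)
    (hD : ∀ v, dg G v ≤ D) (hF : Choosable (inner G W) D)
    (hcross : ∀ u w, G.Adj u w → u ∉ W → w ∈ W → dW G W u + dW G W w ≤ D)
    (hH : ∀ u v, H.Adj u v ↔ G.Adj u v ∧ u ∉ W ∧ v ∉ W ∧ D + 2 ≤ dg G u + dg G v)
    (hdens : Dens H a)
    (h1 : ∀ u v, H.Adj u v → dW G W u + dW G W v + dg H v ≤ D)
    (h2 : ∀ u v, H.Adj u v →
      (dW G W u + dW G W v : ℝ) + 34 * a * (1 + Real.log (dg H v)) ≤ D) :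
    Choosable G D := by
  classical
  have hG1 := choosable_meet G W D hD hF hcross
  let G2 : SimpleGraph V := meet G W ⊔ H
  have hsd : G2 \ meet G W = H := by
    ext u v
    simp only [G2, SimpleGraph.sdiff_adj, SimpleGraph.sup_adj]
    constructor
    · rintro ⟨h3 | h3, h4⟩
      · exact absurd h3 h4
      · exact h3
    · intro h3
      refine ⟨Or.inr h3, ?_⟩
      intro h4
      have h5 := (hH u v).1 h3
      rcases h4.2 with h6 | h6
      · exact h5.2.1 h6
      · exact h5.2.2.1 h6
  have hG2 : Choosable G2 D := by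
    apply choosable_union G2 (meet G W) le_sup_left D a
    · rw [hsd]
      exact hdens
    · exact hG1
    · intro u v huv
      rw [hsd] at huv ⊢
      have h3 := (hH u v).1 huv
      rw [dg_meet_out G W u h3.2.1, dg_meet_out G W v h3.2.2.1]
      exact h1 u v huv
    · intro u v huv
      rw [hsd] at huv ⊢
      have h3 := (hH u v).1 huv
      rw [dg_meet_out G W u h3.2.1, dg_meet_out G W v h3.2.2.1]
      exact h2 u v huv
  apply choosable_light G G2 D _ _ hG2
  · intro u v huv
    simp only [G2, SimpleGraph.sup_adj] at huv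
    rcases huv with h3 | h3
    · exact h3.1
    · exact ((hH u v).1 h3).1
  · intro u v huv hnot
    simp only [G2, SimpleGraph.sup_adj, not_or] at hnot
    by_contra hcon
    apply hnot.2
    rw [hH]
    have h3 : ¬ (u ∈ W ∨ v ∈ W) := fun h => hnot.1 ⟨huv, h⟩
    push Not at h3
    exact ⟨huv, h3.1, h3.2, by omega⟩

end Pool.Agent.TH288.LEC
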