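import Pool.Agent.H162R2.Sparse.Final

/-!
# Local list edge colourings of sparse graphs

The local version of `Pool.Agent.H162R2.Sparse.struct` and `main_edge`: the size of the list of
an edge is compared with the degrees of its two ends only.
-/

set_option autoImplicit false
set_option linter.unusedSectionVars false

namespace Pool.Agent.TH288.LEC

open Finset Pool.Agent.H162R2.Sparse

variable {V : Type} [Fintype V] [DecidableEq V]

/-- the harmonic weight is bounded locally -/
theorem HW_le_local (E : Finset (V × V)) (N : Finset V) (d : V → ℕ) (hd : ∀ w, hh E w ≤ d w)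
    (hN : ∀ e ∈ E, e.2 ∈ N) :
    (HW E : ℝ) ≤ ∑ w ∈ N, (1 + Real.log (d w)) := by
  classical
  unfold HW
  have h1 : ∑ w, harmonic (hh E w) = ∑ w ∈ N, harmonic (hh E w) := by
    symm
    apply Finset.sum_subset (Finset.subset_univ _)
    intro w _ hw
    have h2 : hh E w = 0 := by
      unfold hh
      rw [Finset.card_eq_zero]
      ext f
      simp only [Finset.mem_filter, Finset.notMem_empty, iff_false]
      rintro ⟨h3, h4⟩
      apply hw
      rw [← h4]
      exact hN f h3
    rw [h2]
    simp
  rw [h1]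
  push_cast
  apply Finset.sum_le_sum
  intro w hw
  have h2 := harmonic_le_one_add_log (hh E w)
  refine h2.trans ?_
  by_cases h3 : hh E w = 0
  · rw [h3]
    simp only [Nat.cast_zero, Real.log_zero, add_zero]
    have : 0 ≤ Real.log (d w : ℝ) := Real.log_natCast_nonneg _
    linarith
  · have h4 : Real.log (hh E w : ℝ) ≤ Real.log (d w : ℝ) := by
      apply Real.log_le_log
      · exact_mod_cast Nat.pos_of_ne_zero h3
      · exact_mod_cast hd w
    linarith

/-- The structural lemma with local bounds: `K u v` is the size of the list of `u v`. -/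
theorem struct_local (G : SimpleGraph V) (a : ℝ) (K : V → V → ℕ) (hdens : Dens G a)
    (hK : ∀ u v, G.Adj u v → 34 * a * (1 + Real.log (dg G v)) ≤ K u v)
    (hedge : ∃ u v, G.Adj u v)
    (hno : ∀ u v, G.Adj u v → K u v + 2 ≤ dg G u + dg G v) :
    ∃ X : Finset V, (∃ u ∈ X, ∃ v, G.Adj u v) ∧
      (∀ u ∈ X, ∀ v ∈ X, ¬ G.Adj u v) ∧
      ∀ u, ∑ e ∈ (ES G X).filter (fun e => e.1 = u), (1 / (hh (ES G X) e.2 : ℚ)) ≤ 1 / 16 := by
  classical
  let T : Finset V := Finset.univ.filter (fun v => 1 ≤ dg G v)
  let S : Finset V := T.filter (fun v => (dg G v : ℝ) ≤ 2 * a)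
  let R : Finset V := T.filter (fun v => ¬ (dg G v : ℝ) ≤ 2 * a)
  let B : Finset V := Finset.univ.filter (fun w => ∃ u ∈ S, G.Adj u w)
  have hdpos : ∀ u v, G.Adj u v → 1 ≤ dg G v := by
    intro u v h
    unfold dg
    rw [Nat.one_le_iff_ne_zero, Finset.card_ne_zero]
    exact ⟨u, (mem_nb G v u).2 h.symm⟩
  have hmT : ∀ v, v ∈ T ↔ 1 ≤ dg G v := by
    intro v
    simp [T]
  have hT0 : T.Nonempty := by
    obtain ⟨u, v, h⟩ := hedge
    exact ⟨v, (hmT v).2 (hdpos u v h)⟩
  have hTpos : (0 : ℝ) < T.card := by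
    exact_mod_cast Finset.card_pos.2 hT0
  have hsumT : (∑ v ∈ T, (dg G v : ℝ)) ≤ a * T.card := by
    have h1 := hdens T
    refine le_trans ?_ h1
    have h2 := card_ES G T
    have h3 : (∑ v ∈ T, (dg G v : ℝ)) = ((ES G T).card : ℝ) := by
      rw [h2]
      push_cast
      rfl
    rw [h3]
    have h4 : (ES G T).card ≤ ((pr G).filter (fun e => e.1 ∈ T ∧ e.2 ∈ T)).card := by
      apply Finset.card_le_card
      intro e he
      rw [mem_ES] at he
      rw [Finset.mem_filter, mem_pr]
      exact ⟨he.1, he.2, (hmT _).2 (hdpos _ _ he.1)⟩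
    exact_mod_cast h4
  have ha1 : 1 ≤ a := by
    have h1 : (T.card : ℝ) ≤ ∑ v ∈ T, (dg G v : ℝ) := by
      have h2 : (T.card : ℝ) = ∑ v ∈ T, (1 : ℝ) := by simp
      rw [h2]
      apply Finset.sum_le_sum
      intro v hv
      exact_mod_cast (hmT v).1 hv
    have h3 : (T.card : ℝ) ≤ a * T.card := h1.trans hsumT
    by_contra hcon
    push Not at hcon
    nlinarith
  have hRS : (S.card : ℝ) + R.card = T.card := by
    have h1 := Finset.card_filter_add_card_filter_not (s := T) (fun v => (dg G v : ℝ) ≤ 2 * a)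
    exact_mod_cast h1
  have hR : 2 * a * R.card ≤ a * T.card := by
    refine le_trans ?_ hsumT
    have h1 : (∑ v ∈ R, (dg G v : ℝ)) ≤ ∑ v ∈ T, (dg G v : ℝ) := by
      apply Finset.sum_le_sum_of_subset_of_nonneg (Finset.filter_subset _ _)
      intro v _ _
      positivity
    refine le_trans ?_ h1
    have h2 : 2 * a * (R.card : ℝ) = ∑ v ∈ R, (2 * a) := by
      rw [Finset.sum_const, nsmul_eq_mul]
      ring
    rw [h2]
    apply Finset.sum_le_sum
    intro v hv
    rw [Finset.mem_filter] at hv
    linarith [hv.2]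
  have hS : (T.card : ℝ) ≤ 2 * S.card := by
    have h1 : 2 * (R.card : ℝ) ≤ T.card := by
      by_contra hcon
      push Not at hcon
      nlinarith
    linarith
  have hBT : B ⊆ T := by
    intro w hw
    rw [Finset.mem_filter] at hw
    obtain ⟨_, u, _, h⟩ := hw
    exact (hmT w).2 (hdpos u w h)
  have hBdeg : ∀ w ∈ B, 32 * a * (1 + Real.log (dg G w)) + 2 ≤ dg G w := by
    intro w hw
    rw [Finset.mem_filter] at hw
    obtain ⟨_, u, hu, h⟩ := hw
    rw [Finset.mem_filter] at hu
    have h3 := hno u w h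
    have h4 : (K u w : ℝ) + 2 ≤ dg G u + dg G w := by exact_mod_cast h3
    have h5 := hK u w h
    have h6 : 0 ≤ Real.log (dg G w : ℝ) := Real.log_natCast_nonneg _
    nlinarith [hu.2]
  have hSpos : (0 : ℝ) < S.card := by linarith
  have hHW : 16 * (HW (ES G S) : ℝ) < (S.card : ℝ) := by
    have h1 := HW_le_local (ES G S) B (dg G) (fun w => hh_ES_le G S w) (by
      intro e he
      rw [mem_ES] at he
      rw [Finset.mem_filter]
      exact ⟨Finset.mem_univ _, e.1, he.2, he.1⟩)
    have h2 : 32 * a * (∑ w ∈ B, (1 + Real.log (dg G w : ℝ))) + 2 * B.card ≤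
        ∑ w ∈ B, (dg G w : ℝ) := by
      rw [Finset.mul_sum]
      have h3 : (2 : ℝ) * B.card = ∑ w ∈ B, (2 : ℝ) := by
        rw [Finset.sum_const, nsmul_eq_mul]
        ring
      rw [h3, ← Finset.sum_add_distrib]
      exact Finset.sum_le_sum hBdeg
    have h3 : (∑ v ∈ B, (dg G v : ℝ)) ≤ ∑ v ∈ T, (dg G v : ℝ) := by
      apply Finset.sum_le_sum_of_subset_of_nonneg hBT
      intro v _ _
      positivity
    rcases B.eq_empty_or_nonempty with hB | hB
    · rw [hB, Finset.sum_empty] at h1
      linarith
    · have hBpos : (0 : ℝ) < B.card := by exact_mod_cast Finset.card_pos.2 hB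
      have h4 : 32 * a * (∑ w ∈ B, (1 + Real.log (dg G w : ℝ))) < a * (2 * S.card) := by
        nlinarith
      have h5 : 16 * (∑ w ∈ B, (1 + Real.log (dg G w : ℝ))) < S.card := by
        by_contra hcon
        push Not at hcon
        nlinarith
      linarith
  obtain ⟨X, hX1, hX2, hX3⟩ := peel (ES G S) S (by
    intro e he
    exact ((mem_ES G S e).1 he).2) (by
    have h1 : ((16 * HW (ES G S) : ℚ) : ℝ) < ((S.card : ℚ) : ℝ) := by
      push_cast
      exact hHW
    exact_mod_cast h1)
  have hEX : (ES G S).filter (fun e => e.1 ∈ X) = ES G X := by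
    ext e
    rw [Finset.mem_filter, mem_ES, mem_ES]
    constructor
    · rintro ⟨⟨h1, _⟩, h2⟩
      exact ⟨h1, h2⟩
    · rintro ⟨h1, h2⟩
      exact ⟨⟨h1, hX1 h2⟩, h2⟩
  rw [hEX] at hX3
  refine ⟨X, ?_, ?_, hX3⟩
  · obtain ⟨u, hu⟩ := hX2
    have h1 := hX1 hu
    rw [Finset.mem_filter] at h1
    have h2 := (hmT u).1 h1.1
    unfold dg at h2
    rw [Nat.one_le_iff_ne_zero, Finset.card_ne_zero] at h2
    obtain ⟨v, hv⟩ := h2
    exact ⟨u, hu, v, (mem_nb G u v).1 hv⟩
  · intro u hu v hv h
    have h1 := hX1 hu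
    have h2 := hX1 hv
    rw [Finset.mem_filter] at h1 h2
    have h3 := hno u v h
    have h4 : (K u v : ℝ) + 2 ≤ dg G u + dg G v := by exact_mod_cast h3
    have h5 := hK u v h
    have h6 : 0 ≤ Real.log (dg G v : ℝ) := Real.log_natCast_nonneg _
    nlinarith [h1.2, h2.2]

/-- Extension to an independent set, the lists being compared with the degrees of the
neighbours. -/
theorem ext_bip_local (G : SimpleGraph V) (X : Finset V) (L : V → V → Finset ℕ)
    (hX : ∀ u ∈ X, ∀ v ∈ X, ¬ G.Adj u v)
    (hθ : ∀ u, ∑ e ∈ (ES G X).filter (fun e => e.1 = u), (1 / (hh (ES G X) e.2 : ℚ)) ≤ 1 / 16)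
    (hL : ∀ a b, G.Adj a b → dg G b ≤ (L a b).card)
    (hsym : ∀ a b, L a b = L b a) (IH : LC (cutX G X) L) : LC G L := by
  classical
  obtain ⟨f, hf1, hf2, hf3⟩ := IH
  let L' : V × V → Finset ℕ := fun e =>
    L e.1 e.2 \ ((nb G e.2).filter (fun v => ¬ v ∈ X)).image (f e.2)
  obtain ⟨col, hc1, hc2⟩ := bip_list (ES G X) hθ L' (by
    intro e he
    have h1 := dg_split G X e.2
    have h2 := Finset.card_image_le (s := (nb G e.2).filter (fun v => ¬ v ∈ X)) (f := f e.2)
    have h3 := Finset.le_card_sdiff (((nb G e.2).filter (fun v => ¬ v ∈ X)).image (f e.2))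
      (L e.1 e.2)
    have h4 := hL e.1 e.2 ((mem_ES G X e).1 he).1
    simp only [L']
    omega)
  have hcf : ∀ a b d, a ∉ X → b ∈ X → d ∉ X → G.Adj a b → G.Adj a d → col (b, a) ≠ f a d := by
    intro a b d ha hb hd hab had h
    have h1 := hc1 (b, a) ((mem_ES G X (b, a)).2 ⟨hab.symm, hb⟩)
    simp only [L'] at h1
    rw [Finset.mem_sdiff] at h1
    apply h1.2
    rw [h]
    exact Finset.mem_image_of_mem _ (Finset.mem_filter.2 ⟨(mem_nb G a d).2 had, hd⟩)
  refine ⟨fun a b => if a ∈ X then col (a, b) else if b ∈ X then col (b, a) else f a b,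
    ?_, ?_, ?_⟩
  · intro a b hab
    simp only
    by_cases ha : a ∈ X
    · have hb : b ∉ X := fun hb => hX a ha b hb hab
      rw [if_pos ha, if_neg hb, if_pos ha]
    · by_cases hb : b ∈ X
      · rw [if_neg ha, if_pos hb, if_pos hb]
      · rw [if_neg ha, if_neg hb, if_neg hb, if_neg ha]
        exact hf1 a b ((cutX_adj G X a b).2 ⟨hab, ha, hb⟩)
  · intro a b hab
    simp only
    by_cases ha : a ∈ X
    · rw [if_pos ha]
      have h1 := hc1 (a, b) ((mem_ES G X (a, b)).2 ⟨hab, ha⟩)
      simp only [L'] at h1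
      exact (Finset.mem_sdiff.1 h1).1
    · by_cases hb : b ∈ X
      · rw [if_neg ha, if_pos hb]
        have h1 := hc1 (b, a) ((mem_ES G X (b, a)).2 ⟨hab.symm, hb⟩)
        simp only [L'] at h1
        rw [hsym]
        exact (Finset.mem_sdiff.1 h1).1
      · rw [if_neg ha, if_neg hb]
        exact hf2 a b ((cutX_adj G X a b).2 ⟨hab, ha, hb⟩)
  · intro a b d hab had hbd
    simp only
    by_cases ha : a ∈ X
    · rw [if_pos ha, if_pos ha]
      apply hc2 _ ((mem_ES G X (a, b)).2 ⟨hab, ha⟩) _ ((mem_ES G X (a, d)).2 ⟨had, ha⟩)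
      · intro h
        exact hbd (Prod.ext_iff.1 h).2
      · left
        rfl
    · rw [if_neg ha, if_neg ha]
      by_cases hb : b ∈ X
      · rw [if_pos hb]
        by_cases hd : d ∈ X
        · rw [if_pos hd]
          apply hc2 _ ((mem_ES G X (b, a)).2 ⟨hab.symm, hb⟩) _
            ((mem_ES G X (d, a)).2 ⟨had.symm, hd⟩)
          · intro h
            exact hbd (Prod.ext_iff.1 h).1
          · right
            rfl
        · rw [if_neg hd]
          exact hcf a b d ha hb hd hab had
      · rw [if_neg hb]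
        by_cases hd : d ∈ X
        · rw [if_pos hd]
          exact (hcf a d b ha hd hb had hab).symm
        · rw [if_neg hd]
          exact hf3 a b d ((cutX_adj G X a b).2 ⟨hab, ha, hb⟩)
            ((cutX_adj G X a d).2 ⟨had, ha, hd⟩) hbd

/-- Local list edge colouring of graphs of maximum average degree at most `a`. -/
theorem main_local (a : ℝ) (ha : 0 ≤ a) (L : V → V → Finset ℕ) (hsym : ∀ a b, L a b = L b a) :
    ∀ (n : ℕ) (G : SimpleGraph V), (pr G).card = n → Dens G a →
      (∀ u v, G.Adj u v → dg G v ≤ (L u v).card) →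
      (∀ u v, G.Adj u v → 34 * a * (1 + Real.log (dg G v)) ≤ (L u v).card) → LC G L := by
  classical
  intro n
  induction n using Nat.strong_induction_on with
  | _ n ih =>
    intro G hn hdens hL hL2
    have hstep : ∀ H : SimpleGraph V, (∀ a b, H.Adj a b → G.Adj a b) →
        (pr H).card < (pr G).card → LC H L := by
      intro H hmono hlt
      apply ih _ (hn ▸ hlt) H rfl (Dens_mono hmono hdens)
      · intro u v huv
        exact (dg_mono hmono v).trans (hL u v (hmono u v huv))
      · intro u v huv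
        refine le_trans ?_ (hL2 u v (hmono u v huv))
        apply mul_le_mul_of_nonneg_left _ (by linarith)
        have h1 : (0 : ℝ) < dg H v := by
          have : 0 < dg H v := by
            unfold dg
            rw [Finset.card_pos]
            exact ⟨u, (mem_nb H v u).2 huv.symm⟩
          exact_mod_cast this
        have h2 : (dg H v : ℝ) ≤ dg G v := by exact_mod_cast dg_mono hmono v
        linarith [Real.log_le_log h1 h2]
    by_cases hedge : ∃ u v, G.Adj u v
    · by_cases hsmall : ∃ u v, G.Adj u v ∧ dg G u + dg G v ≤ (L u v).card + 1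
      · obtain ⟨u, v, huv, hdeg⟩ := hsmall
        have hmono : ∀ a b, (cutE G u v).Adj a b → G.Adj a b := by
          intro a b h
          exact ((cutE_adj G u v a b).1 h).1
        apply ext_edge G u v huv L hsym hdeg
        apply hstep _ hmono
        apply pr_card_lt hmono u v huv
        rw [cutE_adj]
        tauto
      · push Not at hsmall
        obtain ⟨X, ⟨u, hu, v, huv⟩, hX3, hX4⟩ := struct_local G a (fun u v => (L u v).card) hdens
          hL2 hedge (by
          intro u v huv
          have := hsmall u v huv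
          omega)
        have hmono : ∀ a b, (cutX G X).Adj a b → G.Adj a b := by
          intro a b h
          exact ((cutX_adj G X a b).1 h).1
        apply ext_bip_local G X L hX3 hX4 hL hsym
        apply hstep _ hmono
        apply pr_card_lt hmono u v huv
        rw [cutX_adj]
        tauto
    · push Not at hedge
      exact ⟨fun _ _ => 0, fun x y h => absurd h (hedge x y), fun x y h => absurd h (hedge x y),
        fun x y z h => absurd h (hedge x y)⟩

/-- Greedy list edge colouring. -/
theorem main_greedy (L : V → V → Finset ℕ) (hsym : ∀ a b, L a b = L b a) :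
    ∀ (n : ℕ) (G : SimpleGraph V), (pr G).card = n →
      (∀ u v, G.Adj u v → dg G u + dg G v ≤ (L u v).card + 1) → LC G L := by
  classical
  intro n
  induction n using Nat.strong_induction_on with
  | _ n ih =>
    intro G hn hL
    by_cases hedge : ∃ u v, G.Adj u v
    · obtain ⟨u, v, huv⟩ := hedge
      have hmono : ∀ a b, (cutE G u v).Adj a b → G.Adj a b := by
        intro a b h
        exact ((cutE_adj G u v a b).1 h).1
      apply ext_edge G u v huv L hsym (hL u v huv)
      apply ih _ _ (cutE G u v) rfl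
      · intro x y hxy
        have h1 := hL x y (hmono x y hxy)
        have h2 := dg_mono hmono x
        have h3 := dg_mono hmono y
        omega
      · rw [← hn]
        apply pr_card_lt hmono u v huv
        rw [cutE_adj]
        tauto
    · push Not at hedge
      exact ⟨fun _ _ => 0, fun x y h => absurd h (hedge x y), fun x y h => absurd h (hedge x y),
        fun x y z h => absurd h (hedge x y)⟩

end Pool.Agent.TH288.LEC
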