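import Pool.Agent.TH288.LEC.Levels

/-!
# Extension of list edge colourings: heavy edges first, light edges last
-/

set_option autoImplicit false
set_option linter.unusedSectionVars false

namespace Pool.Agent.TH288.LEC

open Finset Pool.Agent.H162R2.Sparse Pool.Agent.H921R2.LEC

variable {V : Type} [Fintype V] [DecidableEq V]

/-- The colours left for `x y` by a colouring of `F`. -/
noncomputable def resid (F : SimpleGraph V) (L : Sym2 V → Finset ℕ) (f0 : Sym2 V → ℕ) :
    V → V → Finset ℕ := fun x y => L s(x, y) \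
    ((nb F x).image (fun w => f0 s(x, w)) ∪ (nb F y).image (fun w => f0 s(y, w)))

theorem resid_symm (F : SimpleGraph V) (L : Sym2 V → Finset ℕ) (f0 : Sym2 V → ℕ) (x y : V) :
    resid F L f0 x y = resid F L f0 y x := by
  unfold resid
  rw [Finset.union_comm, Sym2.eq_swap]

theorem resid_card (F : SimpleGraph V) (L : Sym2 V → Finset ℕ) (f0 : Sym2 V → ℕ) (x y : V) :
    (L s(x, y)).card ≤ (resid F L f0 x y).card + (dg F x + dg F y) := by
  have h3 := Finset.le_card_sdiff
    ((nb F x).image (fun w => f0 s(x, w)) ∪ (nb F y).image (fun w => f0 s(y, w))) (L s(x, y))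
  have h4 := Finset.card_union_le ((nb F x).image (fun w => f0 s(x, w)))
    ((nb F y).image (fun w => f0 s(y, w)))
  have h5 := Finset.card_image_le (s := nb F x) (f := fun w => f0 s(x, w))
  have h6 := Finset.card_image_le (s := nb F y) (f := fun w => f0 s(y, w))
  unfold resid dg
  omega

/-- Extension of a colouring of `F`, given a colouring of `G \ F` from the remaining colours. -/
theorem extend_core (G F : SimpleGraph V) (L : Sym2 V → Finset ℕ) (f0 : Sym2 V → ℕ)
    (h0 : ∀ u v w, F.Adj u v → F.Adj u w → v ≠ w → f0 s(u, v) ≠ f0 s(u, w))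
    (h0L : ∀ e ∈ F.edgeSet, f0 e ∈ L e) (hLC : LC (G \ F) (resid F L f0)) :
    ∃ f : Sym2 V → ℕ, (∀ e ∈ F.edgeSet, f e = f0 e) ∧ (∀ e ∈ G.edgeSet, f e ∈ L e) ∧
      ∀ u v w, G.Adj u v → G.Adj u w → v ≠ w → f s(u, v) ≠ f s(u, w) := by
  classical
  obtain ⟨g, hg1, hg2, hg3⟩ := hLC
  have hout : ∀ x y, (G \ F).Adj x y →
      g (Quot.out s(x, y)).1 (Quot.out s(x, y)).2 = g x y := by
    intro x y hxy
    have h3 : s((Quot.out s(x, y)).1, (Quot.out s(x, y)).2) = s(x, y) := Quot.out_eq s(x, y)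
    rcases Sym2.eq_iff.1 h3 with ⟨h4, h5⟩ | ⟨h4, h5⟩
    · rw [h4, h5]
    · rw [h4, h5]
      exact hg1 y x hxy.symm
  let f : Sym2 V → ℕ := fun e => if e ∈ F.edgeSet then f0 e else g (Quot.out e).1 (Quot.out e).2
  have hfF : ∀ x y, F.Adj x y → f s(x, y) = f0 s(x, y) := by
    intro x y h
    simp only [f]
    rw [if_pos]
    exact h
  have hfG : ∀ x y, (G \ F).Adj x y → f s(x, y) = g x y := by
    intro x y h
    simp only [f]
    rw [if_neg, hout x y h]
    intro h3
    rw [SimpleGraph.sdiff_adj] at h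
    exact h.2 h3
  have hmix : ∀ u v w, F.Adj u v → (G \ F).Adj u w → f0 s(u, v) ≠ g u w := by
    intro u v w huv huw h
    have h3 := hg2 u w huw
    simp only [resid] at h3
    rw [Finset.mem_sdiff, Finset.mem_union, not_or] at h3
    apply h3.2.1
    rw [← h]
    exact Finset.mem_image.2 ⟨v, (mem_nb F u v).2 huv, rfl⟩
  refine ⟨f, ?_, ?_, ?_⟩
  · intro e he
    simp only [f]
    rw [if_pos he]
  · intro e
    induction e using Sym2.ind with
    | _ x y =>
      intro he
      by_cases hF : F.Adj x y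
      · rw [hfF x y hF]
        exact h0L _ hF
      · have hH : (G \ F).Adj x y := by
          rw [SimpleGraph.sdiff_adj]
          exact ⟨he, hF⟩
        rw [hfG x y hH]
        have h3 := hg2 x y hH
        simp only [resid] at h3
        exact (Finset.mem_sdiff.1 h3).1
  · intro u v w huv huw hvw
    by_cases h3 : F.Adj u v <;> by_cases h4 : F.Adj u w
    · rw [hfF u v h3, hfF u w h4]
      exact h0 u v w h3 h4 hvw
    · have h5 : (G \ F).Adj u w := by
        rw [SimpleGraph.sdiff_adj]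
        exact ⟨huw, h4⟩
      rw [hfF u v h3, hfG u w h5]
      exact hmix u v w h3 h5
    · have h5 : (G \ F).Adj u v := by
        rw [SimpleGraph.sdiff_adj]
        exact ⟨huv, h3⟩
      rw [hfG u v h5, hfF u w h4]
      exact (hmix u w v h4 h5).symm
    · have h5 : (G \ F).Adj u v := by
        rw [SimpleGraph.sdiff_adj]
        exact ⟨huv, h3⟩
      have h6 : (G \ F).Adj u w := by
        rw [SimpleGraph.sdiff_adj]
        exact ⟨huw, h4⟩
      rw [hfG u v h5, hfG u w h6]
      exact hg3 u v w h5 h6 hvw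

/-- Extension to light edges. -/
theorem extend_light (G F : SimpleGraph V) (hFG : F ≤ G)
    (L : Sym2 V → Finset ℕ) (f0 : Sym2 V → ℕ)
    (h0 : ∀ u v w, F.Adj u v → F.Adj u w → v ≠ w → f0 s(u, v) ≠ f0 s(u, w))
    (h0L : ∀ e ∈ F.edgeSet, f0 e ∈ L e)
    (h1 : ∀ u v, G.Adj u v → ¬ F.Adj u v → dg G u + dg G v ≤ (L s(u, v)).card + 1) :
    ∃ f : Sym2 V → ℕ, (∀ e ∈ F.edgeSet, f e = f0 e) ∧ (∀ e ∈ G.edgeSet, f e ∈ L e) ∧
      ∀ u v w, G.Adj u v → G.Adj u w → v ≠ w → f s(u, v) ≠ f s(u, w) := by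
  classical
  apply extend_core G F L f0 h0 h0L
  apply main_greedy _ (resid_symm F L f0) _ (G \ F) rfl
  intro u v huv
  have h2 := resid_card F L f0 u v
  have hd : ∀ x, dg (G \ F) x + dg F x = dg G x := by
    intro x
    unfold dg
    rw [← Finset.card_union_of_disjoint]
    · congr 1
      ext y
      simp only [Finset.mem_union, mem_nb, SimpleGraph.sdiff_adj]
      constructor
      · rintro (h | h)
        · exact h.1
        · exact hFG h
      · intro h
        by_cases h3 : F.Adj x y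
        · exact Or.inr h3
        · exact Or.inl ⟨h, h3⟩
    · rw [Finset.disjoint_left]
      intro y hy hy'
      rw [mem_nb] at hy hy'
      exact ((SimpleGraph.sdiff_adj _ _ _ _).1 hy).2 hy'
  have h3 := (SimpleGraph.sdiff_adj _ _ _ _).1 huv
  have h4 := h1 u v h3.1 h3.2
  have h5 := hd u
  have h6 := hd v
  omega

/-- Extension to a sparse set of heavy edges and to all light edges. -/
theorem extend_heavy (G F H : SimpleGraph V) (hFG : F ≤ G) (a : ℝ) (hdens : Dens H a)
    (L : Sym2 V → Finset ℕ) (f0 : Sym2 V → ℕ)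
    (hH : ∀ u v, H.Adj u v ↔
      G.Adj u v ∧ ¬ F.Adj u v ∧ (L s(u, v)).card + 2 ≤ dg G u + dg G v)
    (h0 : ∀ u v w, F.Adj u v → F.Adj u w → v ≠ w → f0 s(u, v) ≠ f0 s(u, w))
    (h0L : ∀ e ∈ F.edgeSet, f0 e ∈ L e)
    (h1 : ∀ u v, H.Adj u v → dg F u + dg F v + dg H v ≤ (L s(u, v)).card)
    (h2 : ∀ u v, H.Adj u v →
      (dg F u + dg F v : ℝ) + 34 * a * (1 + Real.log (dg H v)) ≤ (L s(u, v)).card) :
    ∃ f : Sym2 V → ℕ, (∀ e ∈ F.edgeSet, f e = f0 e) ∧ (∀ e ∈ G.edgeSet, f e ∈ L e) ∧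
      ∀ u v w, G.Adj u v → G.Adj u w → v ≠ w → f s(u, v) ≠ f s(u, w) := by
  classical
  have hsd : (F ⊔ H) \ F = H := by
    ext u v
    simp only [SimpleGraph.sdiff_adj, SimpleGraph.sup_adj]
    constructor
    · rintro ⟨h3 | h3, h4⟩
      · exact absurd h3 h4
      · exact h3
    · intro h3
      exact ⟨Or.inr h3, ((hH u v).1 h3).2.1⟩
  obtain ⟨f, hf1, hf2, hf3⟩ := extend (F ⊔ H) F a (by rw [hsd]; exact hdens) L f0 h0 h0L
    (by rw [hsd]; exact h1) (by rw [hsd]; exact h2)
  have hle : F ⊔ H ≤ G := by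
    apply sup_le hFG
    intro u v huv
    exact ((hH u v).1 huv).1
  obtain ⟨g, hg1, hg2, hg3⟩ := extend_light G (F ⊔ H) hle L f hf3 hf2 (by
    intro u v huv hnot
    rw [SimpleGraph.sup_adj, not_or] at hnot
    by_contra hcon
    exact hnot.2 ((hH u v).2 ⟨huv, hnot.1, by omega⟩))
  refine ⟨g, ?_, hg2, hg3⟩
  intro e he
  rw [hg1 e (SimpleGraph.edgeSet_mono le_sup_left he), hf1 e he]

end Pool.Agent.TH288.LEC
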